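import Mathlib

namespace Pool.Agent.H.MP_110370_an

open Finset Nat NNReal

section newton
variable {F : Type} [Field F]

lemma newton (s : Multiset F) (k : ℕ) : k * s.esymm k = (-1) ^ (k + 1) *
    ∑ a ∈ antidiagonal k with a.1 < k, (-1) ^ a.1 * s.esymm a.1 * (s.map (· ^ a.2)).sum := by
  classical
  have h := congrArg (MvPolynomial.aeval (fun x : s => (x : F)))
    (MvPolynomial.mul_esymm_eq_sum s F k)
  simp only [map_mul, map_natCast, map_pow, map_neg, map_one, map_sum,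
    MvPolynomial.aeval_esymm_eq_multiset_esymm, Multiset.map_univ_coe, MvPolynomial.psum,
    MvPolynomial.aeval_X] at h
  rw [h]
  congr 1
  refine sum_congr rfl fun a _ => ?_
  congr 1
  conv_rhs => rw [← s.map_univ_coe, Multiset.map_map]
  rfl

lemma ms_eq {d : ℕ} (hd : ∀ k, 1 ≤ k → k ≤ d → (k : F) ≠ 0) {s t : Multiset F} (hs : s.card = d)
    (ht : t.card = d) (h : ∀ k, 1 ≤ k → k ≤ d → (s.map (· ^ k)).sum = (t.map (· ^ k)).sum) :
    s = t := by
  have h1 : ∀ k, k ≤ d → s.esymm k = t.esymm k := by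
    intro k
    induction k using Nat.strong_induction_on with
    | _ k ih =>
      intro hk
      rcases Nat.eq_zero_or_pos k with rfl | h0
      · simp [Multiset.esymm]
      apply mul_left_cancel₀ (hd k h0 hk)
      rw [newton, newton]
      congr 1
      refine sum_congr rfl fun a ha => ?_
      simp only [mem_filter, HasAntidiagonal.mem_antidiagonal] at ha
      rw [ih a.1 ha.2 (by omega), h a.2 (by omega) (by omega)]
  rw [← Polynomial.roots_multiset_prod_X_sub_C s, ← Polynomial.roots_multiset_prod_X_sub_C t,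
    Multiset.prod_X_sub_X_eq_sum_esymm, Multiset.prod_X_sub_X_eq_sum_esymm, hs, ht]
  congr 1
  exact sum_congr rfl fun j hj => by rw [h1 j (by simpa [Nat.lt_succ_iff] using hj)]

lemma fn_eq [Fintype F] [DecidableEq F] {d : ℕ} (hd : ∀ k, 1 ≤ k → k ≤ d → (k : F) ≠ 0)
    {m m' : F → ℕ} (hs : ∑ t, m t = d) (ht : ∑ t, m' t = d)
    (h : ∀ i : Fin d, ∑ t, (m t : F) * t ^ (i.1 + 1) = ∑ t, (m' t : F) * t ^ (i.1 + 1)) : m = m' := by
  have h1 : ∑ t, Multiset.replicate (m t) t = ∑ t, Multiset.replicate (m' t) t := by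
    refine ms_eq hd (by simpa using hs) (by simpa using ht) fun k h1 h2 => ?_
    have := h ⟨k - 1, by omega⟩
    simp only [Nat.sub_add_cancel h1] at this
    have e : ∀ m : F → ℕ, ((∑ t, Multiset.replicate (m t) t).map (· ^ k)).sum =
        ∑ t, (m t : F) * t ^ k := fun m => by
      rw [← Multiset.coe_mapAddMonoidHom, map_sum, ← Multiset.coe_sumAddMonoidHom, map_sum]
      simp
    rw [e, e, this]
  ext x
  simpa [Multiset.count_sum', Multiset.count_replicate] using congrArg (Multiset.count x) h1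

lemma parseval [Fintype F] [DecidableEq F] {d : ℕ} (hd : ∀ k, 1 ≤ k → k ≤ d → (k : F) ≠ 0)
    (ψ : AddChar F ℂ) (hψ : ψ ≠ 1) (f : F → ℂ) :
    ∑ x : Fin d → F, ‖∑ t, f t * ψ (∑ i, x i * t ^ (i.1 + 1))‖ ^ (2 * d) = (Fintype.card F : ℝ) ^ d *
      ∑ m ∈ piAntidiag univ d, (multinomial univ m : ℝ) ^ 2 * ∏ t, (‖f t‖ ^ 2) ^ m t := by
  obtain ⟨c, hc⟩ : ∃ c : (F → ℕ) → ℂ, ∀ m, c m = multinomial univ m * ∏ t, f t ^ m t :=
    ⟨_, fun _ => rfl⟩
  obtain ⟨y, hy⟩ : ∃ y : (F → ℕ) → Fin d → F, ∀ m i, y m i = ∑ t, (m t : F) * t ^ (i.1 + 1) :=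
    ⟨_, fun _ _ => rfl⟩
  have ms : ∀ {ι : Type} (s : Finset ι) (g : ι → F), ψ (∑ i ∈ s, g i) = ∏ i ∈ s, ψ (g i) := by
    intro ι s g
    induction s using Finset.cons_induction with
    | empty => simp
    | cons a s h ih => rw [sum_cons, prod_cons, AddChar.map_add_eq_mul, ih]
  have h1 : ∀ x : Fin d → F, (∑ t, f t * ψ (∑ i, x i * t ^ (i.1 + 1))) ^ d =
      ∑ m ∈ piAntidiag univ d, c m * ∏ i, ψ (x i * y m i) := by
    intro x
    rw [sum_pow_eq_sum_piAntidiag]
    refine sum_congr rfl fun m _ => ?_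
    simp only [hc, hy, mul_pow, prod_mul_distrib, mul_assoc, ← AddChar.map_nsmul_eq_pow,
      ← ms, nsmul_eq_mul, mul_sum]
    rw [sum_comm]
    congr 3
    exact sum_congr rfl fun _ _ => sum_congr rfl fun _ _ => by ring
  have h2 : ∀ m ∈ piAntidiag univ d, ∀ m' ∈ piAntidiag univ d,
      ∑ x : Fin d → F, ∏ i, ψ (x i * (y m i - y m' i)) =
        if m = m' then (Fintype.card F : ℂ) ^ d else 0 := by
    intro m hm m' hm'
    rw [← Fintype.prod_sum (fun i a => ψ (a * (y m i - y m' i)))]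
    simp only [AddChar.sum_mulShift _ (AddChar.IsPrimitive.of_ne_one hψ)]
    split_ifs with h
    · simp [h]
    · by_contra h3
      refine h (fn_eq hd (mem_piAntidiag.1 hm).1 (mem_piAntidiag.1 hm').1 fun i => ?_)
      by_contra h4
      refine h3 (prod_eq_zero (mem_univ i) ?_)
      rw [if_neg (by rwa [hy, hy, sub_eq_zero]), Nat.cast_zero]
  have h3 : ∀ z : ℂ, ((‖z‖ ^ (2 * d) : ℝ) : ℂ) = z ^ d * (starRingEnd ℂ) (z ^ d) := fun z => by
    rw [Complex.mul_conj', norm_pow, mul_comm 2 d, pow_mul]; push_cast; rfl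
  apply Complex.ofReal_injective
  rw [Complex.ofReal_sum]
  simp only [h3, h1, map_sum, sum_mul_sum]
  rw [sum_comm, Complex.ofReal_mul, Complex.ofReal_sum, mul_sum]
  refine sum_congr rfl fun m hm => ?_
  rw [sum_comm, sum_congr rfl (g := fun m' => c m * (starRingEnd ℂ) (c m') *
    if m = m' then (Fintype.card F : ℂ) ^ d else 0)]
  · simp only [mul_ite, mul_zero, sum_ite_eq, hm, if_true, Complex.mul_conj', hc, norm_mul,
      norm_prod, norm_pow, Complex.norm_natCast]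
    push_cast
    rw [mul_pow, ← prod_pow, mul_comm]
    congr 2
    exact prod_congr rfl fun _ _ => by ring
  · intro m' hm'
    rw [← h2 m hm m' hm', mul_sum]
    refine sum_congr rfl fun x _ => ?_
    simp only [map_mul, map_prod, ← AddChar.map_neg_eq_conj, mul_sub, sub_eq_add_neg,
      AddChar.map_add_eq_mul, prod_mul_distrib, mul_add, mul_neg]
    ring

end newton

section schur
open Polynomial

lemma pw (P R : ℝ≥0[X]) (n : ℕ) : ∃ T, (P + R) ^ n = P ^ n + T := by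
  induction n with
  | zero => exact ⟨0, by simp⟩
  | succ n ih =>
    obtain ⟨T, h⟩ := ih
    exact ⟨P ^ n * R + T * (P + R), by rw [pow_succ, h]; ring⟩

lemma cf (u v : ℝ≥0) (n k : ℕ) :
    ((C v * X + C u) ^ n).coeff k = n.choose k * v ^ k * u ^ (n - k) := by
  rw [add_pow, finsetSum_coeff, sum_eq_single k]
  · rw [mul_pow, ← C_pow, ← C_pow, ← C_eq_natCast, coeff_mul_C, coeff_mul_C, coeff_C_mul]
    simp; ring
  · intro j _ hj
    rw [mul_pow, ← C_pow, ← C_pow, ← C_eq_natCast, coeff_mul_C, coeff_mul_C, coeff_C_mul]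
    simp [hj.symm]
  · intro h
    simp [choose_eq_zero_of_lt (by simpa using h : n < k)]

noncomputable def E (a : ℝ≥0) : PowerSeries ℝ≥0 := PowerSeries.mk fun k => a ^ k / (k ! : ℝ≥0) ^ 2

lemma EE (u v : ℝ≥0) (n : ℕ) : (n ! : ℝ≥0) ^ 2 * PowerSeries.coeff n (E (v ^ 2) * E (u ^ 2)) =
    ((C (u * v) * (1 + X ^ 2) + C (v ^ 2 + u ^ 2) * X) ^ n).coeff n := by
  have h : C (u * v) * (1 + X ^ 2) + C (v ^ 2 + u ^ 2) * X = (C v * X + C u) * (C u * X + C v) := by
    simp only [map_mul, map_add, map_pow]; ring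
  rw [h, mul_pow, coeff_mul, PowerSeries.coeff_mul, mul_sum]
  refine sum_congr rfl fun ⟨i, j⟩ hp => ?_
  obtain rfl : i + j = n := mem_antidiagonal.1 hp
  simp only [E, PowerSeries.coeff_mk, cf, Nat.add_sub_cancel, Nat.add_sub_cancel_left]
  rw [← add_choose_mul_factorial_mul_factorial, choose_symm_add (a := i)]
  have := factorial_ne_zero i
  have := factorial_ne_zero j
  push_cast
  field_simp
  ring

lemma pair {a b : ℝ≥0} (hab : a ≠ b) (n : ℕ) :
    PowerSeries.coeff n (E a * E b) ≤ PowerSeries.coeff n (E ((a + b) / 2) * E ((a + b) / 2)) ∧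
    (2 ≤ n → PowerSeries.coeff n (E a * E b) <
      PowerSeries.coeff n (E ((a + b) / 2) * E ((a + b) / 2))) := by
  obtain ⟨v, rfl⟩ : ∃ v, v ^ 2 = a := ⟨_, NNReal.sq_sqrt a⟩
  obtain ⟨u, rfl⟩ : ∃ v, v ^ 2 = b := ⟨_, NNReal.sq_sqrt b⟩
  obtain ⟨w, hw⟩ : ∃ w, w ^ 2 = (v ^ 2 + u ^ 2) / 2 := ⟨_, NNReal.sq_sqrt _⟩
  have huv : (v : ℝ) - u ≠ 0 := fun h => hab (by rw [NNReal.eq (sub_eq_zero.1 h)])
  have hlt : u * v < w * w := by
    rw [← sq, hw, ← NNReal.coe_lt_coe]
    push_cast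
    nlinarith [sq_pos_of_ne_zero huv]
  obtain ⟨δ, hδ, h0⟩ : ∃ δ, w * w = u * v + δ ∧ 0 < δ :=
    ⟨w * w - u * v, (add_tsub_cancel_of_le hlt.le).symm, tsub_pos_of_lt hlt⟩
  have hs : w ^ 2 + w ^ 2 = v ^ 2 + u ^ 2 := by rw [hw, add_halves]
  have hs0 : 0 < v ^ 2 + u ^ 2 := by
    rw [← hs, sq]
    have := _root_.zero_le.trans_lt hlt
    positivity
  have hn : (0 : ℝ≥0) < (n ! : ℝ≥0) ^ 2 := by have := factorial_pos n; positivity
  rw [← hw, ← mul_le_mul_iff_right₀ hn, ← mul_lt_mul_iff_right₀ hn, EE, EE, hδ, hs]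
  generalize v ^ 2 + u ^ 2 = s at hs0
  obtain ⟨P, hP⟩ : ∃ P, P = C (u * v) * (1 + X ^ 2) + C s * X := ⟨_, rfl⟩
  rw [show C (u * v + δ) * (1 + X ^ 2) + C s * X = P + C δ * (1 + X ^ 2) by
    rw [hP, map_add]; ring, ← hP]
  refine ⟨?_, fun h2 => ?_⟩
  · obtain ⟨T, hT⟩ := pw P (C δ * (1 + X ^ 2)) n
    rw [hT, coeff_add]
    exact le_self_add
  · obtain ⟨k, rfl⟩ := Nat.exists_eq_add_of_le' h2
    obtain ⟨T, hT⟩ := pw P (C δ * (1 + X ^ 2)) k
    obtain ⟨T', hT'⟩ := pw (C s * X) (C (u * v) * (1 + X ^ 2)) k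
    rw [add_comm, ← hP] at hT'
    have : (P + C δ * (1 + X ^ 2)) ^ (k + 2) = P ^ (k + 2) + (C (s ^ k * δ ^ 2) * X ^ (k + 2) +
        (T * (P + C δ * (1 + X ^ 2)) ^ 2 + P ^ k * (2 * P * (C δ * (1 + X ^ 2)) +
          C δ ^ 2 * (1 + X ^ 2 + X ^ 4)) + T' * (C δ ^ 2 * X ^ 2))) := by
      rw [pow_add, hT, pow_add P, hT']
      simp only [map_mul, map_pow]
      ring
    rw [this, coeff_add, coeff_add, coeff_C_mul_X_pow, if_pos rfl]
    exact lt_add_of_pos_right _ (lt_of_lt_of_le (by positivity) le_self_add)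

variable {ι : Type} [Fintype ι] [DecidableEq ι]

noncomputable def Φ (d : ℕ) (a : ι → ℝ≥0) : ℝ≥0 :=
  ∑ m ∈ piAntidiag univ d, (multinomial univ m : ℝ≥0) ^ 2 * ∏ t, a t ^ m t

lemma Φ_eq (d : ℕ) (a : ι → ℝ≥0) :
    Φ d a = (d ! : ℝ≥0) ^ 2 * PowerSeries.coeff d (∏ t, E (a t)) := by
  rw [PowerSeries.coeff_prod, mul_sum, Φ]
  symm
  refine sum_nbij' (fun l => ⇑l) (fun m => Finsupp.equivFunOnFinite.symm m) (by simp) (by simp)
    (by simp) (by simp) fun l hl => ?_
  have h := multinomial_spec univ l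
  rw [(mem_finsuppAntidiag.1 hl).1] at h
  simp only [E, PowerSeries.coeff_mk, prod_div_distrib, prod_pow, ← h]
  have : ∏ i, ((l i)! : ℝ≥0) ≠ 0 := prod_ne_zero_iff.2 fun i _ => by
    exact_mod_cast factorial_ne_zero _
  push_cast
  field_simp

lemma improve {d : ℕ} (hd : 2 ≤ d) (a : ι → ℝ≥0) {i j : ι} (h : a i ≠ a j) :
    ∃ b : ι → ℝ≥0, ∑ t, b t = ∑ t, a t ∧ Φ d a < Φ d b := by
  have hij : i ≠ j := fun e => h (by rw [e])
  have hj : j ∈ univ.erase i := mem_erase.2 ⟨hij.symm, mem_univ _⟩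
  obtain ⟨b, b1, b2, b3⟩ : ∃ b : ι → ℝ≥0, b i = (a i + a j) / 2 ∧ b j = (a i + a j) / 2 ∧
      ∀ t ∈ (univ.erase i).erase j, b t = a t :=
    ⟨fun t => if t = i ∨ t = j then (a i + a j) / 2 else a t, by simp, by simp,
      fun t ht => by simp at ht; simp [ht]⟩
  refine ⟨b, ?_, ?_⟩
  · rw [← add_sum_erase _ _ (mem_univ i), ← add_sum_erase _ _ hj, ← add_sum_erase _ _ (mem_univ i),
      ← add_sum_erase _ _ hj, sum_congr rfl b3, b1, b2, ← add_assoc, add_halves, add_assoc]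
  · rw [Φ_eq, Φ_eq, ← mul_prod_erase _ _ (mem_univ i), ← mul_prod_erase _ _ hj,
      ← mul_prod_erase _ _ (mem_univ i), ← mul_prod_erase _ _ hj, b1, b2, ← mul_assoc, ← mul_assoc,
      prod_congr rfl fun t ht => congrArg E (b3 t ht), PowerSeries.coeff_mul, PowerSeries.coeff_mul]
    refine mul_lt_mul_of_pos_left (sum_lt_sum (fun p _ => mul_le_mul_left (pair h p.1).1 _)
      ⟨(d, 0), by simp, mul_lt_mul_of_pos_right ((pair h d).2 hd) ?_⟩)
      (by have := factorial_pos d; positivity)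
    simp [E, ← PowerSeries.coeff_zero_eq_constantCoeff_apply]

lemma schur {d : ℕ} (hd : 2 ≤ d) (a : ι → ℝ≥0) (μ : ℝ≥0) (h : ∑ t, a t = Fintype.card ι * μ) :
    Φ d a ≤ μ ^ d * Φ d (fun _ : ι => 1) ∧
      (Φ d a = μ ^ d * Φ d (fun _ : ι => 1) ↔ ∀ t, a t = μ) := by
  have hc : Φ d (fun _ : ι => μ) = μ ^ d * Φ d (fun _ : ι => 1) := by
    simp only [Φ, mul_sum, one_pow, prod_const_one, mul_one]
    refine sum_congr rfl fun m hm => ?_
    rw [prod_pow_eq_pow_sum, (mem_piAntidiag.1 hm).1, mul_comm]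
  have cst : ∀ b : ι → ℝ≥0, ∑ t, b t = Fintype.card ι * μ → (∀ i j, b i = b j) → ∀ t, b t = μ := by
    intro b hb h2 t
    rw [sum_congr rfl fun s _ => h2 s t, sum_const, Finset.card_univ, nsmul_eq_mul] at hb
    exact mul_left_cancel₀ (by exact_mod_cast (Fintype.card_pos_iff.2 ⟨t⟩).ne') hb
  have hK : IsCompact {b : ι → ℝ≥0 | ∑ t, b t = Fintype.card ι * μ} :=
    (isCompact_Icc (a := 0) (b := fun _ => Fintype.card ι * μ)).of_isClosed_subset
      (isClosed_eq (by fun_prop) continuous_const) fun b hb => ⟨_root_.zero_le, fun t =>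
        (single_le_sum (fun _ _ => _root_.zero_le) (mem_univ t)).trans_eq hb⟩
  obtain ⟨b, hb, hmax⟩ := hK.exists_isMaxOn ⟨a, h⟩ (f := Φ d) (by unfold Φ; fun_prop)
  have h1 : ∀ t, b t = μ := cst b hb fun i j => by
    by_contra h2
    obtain ⟨b', h3, h4⟩ := improve hd b h2
    exact h4.not_ge (hmax (h3.trans hb))
  rw [funext h1] at hmax
  rw [← hc]
  refine ⟨hmax h, fun h2 => cst a h fun i j => ?_, fun h2 => by rw [funext h2]⟩
  by_contra h3
  obtain ⟨b', h4, h5⟩ := improve hd a h3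
  exact (h2 ▸ h5).not_ge (hmax (h4.trans h))

end schur

lemma count {d q : ℕ} (h : d ≤ q) :
    ∑ m ∈ piAntidiag (univ : Finset (Fin q)) d, (multinomial univ m : ℝ) ^ 2 =
    ∑ l ∈ (piAntidiag (univ : Finset (Fin d)) d).filter Antitone, ((d ! : ℝ) / ∏ i, (l i)!) ^ 2 *
      ((q ! : ℝ) / ∏ j ∈ range (d + 1), (#{i | l i = j} + if j = 0 then q - d else 0)!) := by
  classical
  obtain ⟨k, rfl⟩ := Nat.exists_eq_add_of_le h
  obtain ⟨x, hx⟩ : ∃ x : (Fin d → ℕ) → Fin (d + k) → ℕ, ∀ l, x l = Fin.append l 0 := ⟨_, fun _ => rfl⟩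
  have xa : ∀ l, Antitone l → Antitone (x l) := by
    intro l hl a b hab
    rw [hx]
    induction b using Fin.addCases with
    | right b => simp
    | left b =>
      induction a using Fin.addCases with
      | right a => exact absurd (Fin.le_def.1 hab) (by simp; omega)
      | left a => simpa using hl (Fin.le_def.2 (by simpa using Fin.le_def.1 hab))
  have ex : ∀ m : Fin (d + k) → ℕ, ∑ t, m t = d → ∃ l, Antitone l ∧ ∃ σ : Equiv.Perm _, m = x l ∘ σ := by
    intro m hm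
    obtain ⟨σ, hσ⟩ : ∃ σ : Equiv.Perm (Fin (d + k)), Antitone (m ∘ σ) :=
      ⟨Tuple.sort (OrderDual.toDual ∘ m), fun a b hab => Tuple.monotone_sort (OrderDual.toDual ∘ m) hab⟩
    refine ⟨fun i => m (σ (Fin.castAdd k i)), fun a b hab => hσ hab, σ⁻¹, ?_⟩
    have : m ∘ σ = x fun i => m (σ (Fin.castAdd k i)) := by
      ext a
      rw [hx]
      induction a using Fin.addCases with
      | left a => simp
      | right a =>
        simp only [Function.comp, Fin.append_right, Pi.zero_apply]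
        by_contra h0
        have h1 : ∑ t, m (σ t) = d := by rw [Equiv.sum_comp σ m, hm]
        rw [Fin.sum_univ_add] at h1
        have h2 : ∑ _i : Fin d, 1 ≤ ∑ i, m (σ (Fin.castAdd k i)) := sum_le_sum fun i _ =>
          (Nat.pos_of_ne_zero h0).trans_le (hσ (Fin.le_def.2 (by simp; omega)))
        have h3 := single_le_sum (f := fun i => m (σ (Fin.natAdd d i))) (fun _ _ => Nat.zero_le _)
          (mem_univ a)
        simp at h2 h3
        omega
    rw [← this]
    ext a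
    simp
  choose! τ t1 t2 using ex
  have sm : ∀ l (σ : Equiv.Perm _), ∑ t, (x l ∘ σ) t = ∑ i, l i := fun l σ => by
    simp only [Function.comp]
    rw [Equiv.sum_comp σ (x l), hx, Fin.sum_univ_add]
    simp
  have un : ∀ l, Antitone l → ∑ i, l i = d → ∀ σ : Equiv.Perm _, τ (x l ∘ σ) = l := by
    intro l hl hs σ
    obtain ⟨ρ, h1⟩ := t2 _ ((sm l σ).trans hs)
    have h2 : x l ∘ ⇑(σ * ρ⁻¹) = x (τ (x l ∘ σ)) := by
      ext a
      simpa using congrFun h1 (ρ⁻¹ a)
    have h3 := Tuple.unique_antitone (f := x l) (σ := σ * ρ⁻¹) (τ := 1)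
      (h2 ▸ xa _ (t1 _ ((sm l σ).trans hs))) (xa l hl)
    rw [h2] at h3
    ext i
    simpa [hx] using congrFun h3 (Fin.castAdd k i)
  rw [← sum_fiberwise_of_maps_to (g := τ) (t := (piAntidiag (univ : Finset (Fin d)) d).filter Antitone)]
  swap
  · intro m hm
    have h1 := (mem_piAntidiag.1 hm).1
    obtain ⟨σ, h2⟩ := t2 m h1
    simp only [mem_filter, mem_piAntidiag, mem_univ, implies_true, and_true]
    exact ⟨by rw [← sm _ σ, ← h2, h1], t1 m h1⟩
  refine sum_congr rfl fun l hl => ?_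
  simp only [mem_filter, mem_piAntidiag, mem_univ, implies_true, and_true] at hl
  obtain ⟨S, hS⟩ : ∃ S, S = {m ∈ piAntidiag (univ : Finset (Fin (d + k))) d | τ m = l} := ⟨_, rfl⟩
  have mS : ∀ m, m ∈ S ↔ ∃ σ : Equiv.Perm _, m = x l ∘ σ := fun m => by
    simp only [hS, mem_filter, mem_piAntidiag, mem_univ, implies_true, and_true]
    constructor
    · rintro ⟨h1, rfl⟩
      exact t2 m h1
    · rintro ⟨σ, rfl⟩
      exact ⟨(sm l σ).trans hl.1, un l hl.2 hl.1 σ⟩
  rw [← hS, sum_congr rfl (g := fun _ => ((d ! : ℝ) / ∏ i, (l i)!) ^ 2), sum_const, nsmul_eq_mul,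
    mul_comm]
  swap
  · intro m hm
    obtain ⟨σ, rfl⟩ := (mS m).1 hm
    have h1 := multinomial_spec univ (x l ∘ σ)
    rw [sm, hl.1] at h1
    simp only [Function.comp] at h1
    rw [Equiv.prod_comp σ (fun t => (x l t)!), hx, Fin.prod_univ_add] at h1
    simp only [Fin.append_left, Fin.append_right, Pi.zero_apply, factorial_zero, prod_const_one,
      mul_one, ← hx] at h1
    rw [← h1, Nat.cast_mul, mul_div_cancel_left₀ _ (by positivity)]
  congr 1
  rw [eq_div_iff (by positivity)]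
  norm_cast
  have h1 := card_eq_sum_card_fiberwise (s := univ) (t := S) (f := fun σ : Equiv.Perm _ => x l ∘ σ)
    fun σ _ => (mS _).2 ⟨σ, rfl⟩
  rw [Finset.card_univ, Fintype.card_perm, Fintype.card_fin] at h1
  rw [h1, sum_congr rfl (g := fun _ => Fintype.card {g : Equiv.Perm _ // x l ∘ g = x l}), sum_const,
    smul_eq_mul, DomMulAct.stabilizer_card']
  · congr 1
    rw [← prod_subset (s₁ := univ.image (x l))]
    · refine prod_congr rfl fun j _ => ?_
      rw [Fintype.card_subtype, card_filter, card_filter, Fin.sum_univ_add, hx]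
      simp [eq_comm]
    · intro j hj
      obtain ⟨a, -, rfl⟩ := mem_image.1 hj
      have := single_le_sum (f := x l ∘ (1 : Equiv.Perm (Fin (d + k)))) (fun _ _ => Nat.zero_le _) (mem_univ a)
      rw [sm, hl.1] at this
      exact mem_range.2 (Nat.lt_succ_of_le this)
    · intro j _ hj
      simp only [mem_image, mem_univ, true_and, not_exists, hx, Fin.forall_fin_add, Fin.append_left,
        Fin.append_right, Pi.zero_apply] at hj
      rw [filter_false_of_mem fun i _ => hj.1 i]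
      split_ifs with h0
      · rcases Nat.eq_zero_or_pos k with rfl | hk
        · simp
        · exact absurd h0.symm (hj.2 ⟨0, hk⟩)
      · simp
  · intro m hm
    obtain ⟨σ, rfl⟩ := (mS m).1 hm
    rw [Fintype.card_subtype]
    refine card_nbij' (· * σ⁻¹) (· * σ) (fun g hg => ?_) (fun g hg => ?_)
      (fun _ _ => by simp) (fun _ _ => by simp)
    · simp only [coe_filter, mem_univ, true_and, Set.mem_ofPred_eq] at hg ⊢
      ext a
      simpa using congrFun hg (σ⁻¹ a)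
    · simp only [coe_filter, mem_univ, true_and, Set.mem_ofPred_eq] at hg ⊢
      ext a
      simpa using congrFun hg (σ a)

end Pool.Agent.H.MP_110370_an
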